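import Pool.Agent.Run7.h414.HL.A3
import Pool.Agent.Run7.h414.HL.A4
import Pool.Agent.Run7.h414.DP.XR

/-!
# The asymptotic formulas of Hardy and Littlewood, with the exact constants `E` and `2 E`, for prime quadruples of BOTH shapes
# whose three last members are displaced by random multiples of a small primorial

The digits of the random integer `v` are given by a determinantal random set `S` of positions (a determinantal point process
with an arbitrary Hermitian kernel): the digit number `i` is `y i` if `i ∈ S` and `x i ≠ y i` otherwise. Examples (their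
existence is not used and not formalised): the edges of a uniform spanning tree of a graph with `k` edges; stationary
determinantal processes with any symbol which is not almost everywhere `0` or almost everywhere `1` (for example the discrete
sine process with any density); independent digits, for example the integers all of whose digits are `0` or `1`.

Definitions used (in `Pool.Agent.Run7.h414.DP.Law` and `Pool.Agent.Run7.h414.DP.Fam`): `DetLaw`, `GoodPos`, `DetDigits`
(used with `t = 0`: `0 ≤ p v ≤ μ v` with the law `μ` of an integer with determinantal digits).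

Method: the characteristic function is `det (1 + D A)`; the inequality `|det N|² ≤ exp (tr N* N - k)` for
`N = 1 + B D B*`, `A = B* B`, bounds it by `exp (- E)` with an energy `E` which is at least a constant times the number of
the places where the frequency is far from the rational numbers with small denominators. With this input the sieve and the
circle method of the starting library for exchangeable blocks (`Pool.Agent.N625.PT`, in the form for classes of laws of
`Pool.Agent.Run7.h672.XC`) give the number of the tuples in terms of the number of the admissible primes; the latter is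
computed here with the theorem of Siegel and Walfisz (`Pool.Agent.H373R2.T7.lam_ap`), and gives exactly the constants of
Hardy and Littlewood.
-/

set_option autoImplicit false

open Finset Filter
open scoped Topology
open Pool.Agent.Run7.h414.DP (DC DC_sum DC_nonneg DetDigits fam_dc dc_rcls)
open Pool.Agent.Run7.h414.HL

namespace Pool.Agent.Results.MP_092512_nt.BothShapesOnAverage

/-- the multiple of the product of the primes `≤ y` given by the integers `h` and `c + κ v` -/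
def Nv (y h : ℕ) (c κ : ℤ) (v : ℕ) : ℤ := ((primorial y * h : ℕ) : ℤ) * (c + κ * v)

/-- the number of the primes `p ≤ n` such that `p + 2 + N 0`, `p + 6 + N 1` and `p + 8 + N 2` are prime -/
noncomputable def N1 (n : ℕ) (N : Fin 3 → ℤ) : ℝ :=
  ((Icc 1 n).filter (fun p : ℕ => p.Prime ∧ ((p : ℤ) + 2 + N 0).toNat.Prime ∧ ((p : ℤ) + 6 + N 1).toNat.Prime ∧
    ((p : ℤ) + 8 + N 2).toNat.Prime)).card

/-- the number of the primes `p ≤ n` such that `p + 4 + N 0`, `p + 6 + N 1` and `p + 10 + N 2` are prime -/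
noncomputable def N2 (n : ℕ) (N : Fin 3 → ℤ) : ℝ :=
  ((Icc 1 n).filter (fun p : ℕ => p.Prime ∧ ((p : ℤ) + 4 + N 0).toNat.Prime ∧ ((p : ℤ) + 6 + N 1).toNat.Prime ∧
    ((p : ℤ) + 10 + N 2).toNat.Prime)).card

lemma eqA (n : ℕ) (N : Fin 3 → ℤ) : ((Tup ![2, 6, 8] N n).card : ℝ) = N1 n N := by
  unfold Tup N1
  congr 2
  apply filter_congr
  intro p _
  apply and_congr Iff.rfl
  rw [Fin.forall_fin_succ, Fin.forall_fin_succ, Fin.forall_fin_succ]
  simp

lemma eqB (n : ℕ) (N : Fin 3 → ℤ) : ((Tup ![4, 6, 10] N n).card : ℝ) = N2 n N := by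
  unfold Tup N2
  congr 2
  apply filter_congr
  intro p _
  apply and_congr Iff.rfl
  rw [Fin.forall_fin_succ, Fin.forall_fin_succ, Fin.forall_fin_succ]
  simp

lemma good_iff {r : ℕ} (a : Fin r → ℕ) (l x : ℕ) : Good a l x ↔ ¬ l ∣ x ∧ ∀ j, ¬ l ∣ x + a j := by
  unfold Good
  simp only [Ne, ← Nat.dvd_iff_mod_eq_zero]

lemma admA (l : ℕ) (hl : l.Prime) : ∃ x : ℕ, x < l ∧ Good ![2, 6, 8] l x := by
  have key : ∃ m : ℕ, Good ![2, 6, 8] l m := by
    rcases lt_or_ge l 30 with h30 | h30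
    · refine ⟨101, ?_⟩
      rw [good_iff]
      refine ⟨fun hd => ?_, fun j hd => ?_⟩
      · have := (Nat.prime_dvd_prime_iff_eq hl (by norm_num)).1 hd
        omega
      · fin_cases j
        · have := (Nat.prime_dvd_prime_iff_eq hl (by norm_num)).1 hd
          simp at this
          omega
        · have := (Nat.prime_dvd_prime_iff_eq hl (by norm_num)).1 hd
          simp at this
          omega
        · have := (Nat.prime_dvd_prime_iff_eq hl (by norm_num)).1 hd
          simp at this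
          omega
    · refine ⟨5, ?_⟩
      rw [good_iff]
      refine ⟨fun hd => ?_, fun j hd => ?_⟩
      · have := Nat.le_of_dvd (by omega) hd
        omega
      · have := Nat.le_of_dvd (by omega) hd
        fin_cases j <;> simp at this <;> omega
  obtain ⟨m, hm⟩ := key
  refine ⟨m % l, Nat.mod_lt _ hl.pos, ?_⟩
  unfold Good at hm ⊢
  rw [Nat.mod_mod]
  exact ⟨hm.1, fun j => by rw [Nat.mod_add_mod]; exact hm.2 j⟩

lemma admB (l : ℕ) (hl : l.Prime) : ∃ x : ℕ, x < l ∧ Good ![4, 6, 10] l x := by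
  have key : ∃ m : ℕ, Good ![4, 6, 10] l m := by
    rcases lt_or_ge l 30 with h30 | h30
    · refine ⟨37, ?_⟩
      rw [good_iff]
      refine ⟨fun hd => ?_, fun j hd => ?_⟩
      · have := (Nat.prime_dvd_prime_iff_eq hl (by norm_num)).1 hd
        omega
      · fin_cases j
        · have := (Nat.prime_dvd_prime_iff_eq hl (by norm_num)).1 hd
          simp at this
          omega
        · have := (Nat.prime_dvd_prime_iff_eq hl (by norm_num)).1 hd
          simp at this
          omega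
        · have := (Nat.prime_dvd_prime_iff_eq hl (by norm_num)).1 hd
          simp at this
          omega
    · refine ⟨7, ?_⟩
      rw [good_iff]
      refine ⟨fun hd => ?_, fun j hd => ?_⟩
      · have := Nat.le_of_dvd (by omega) hd
        omega
      · have := Nat.le_of_dvd (by omega) hd
        fin_cases j <;> simp at this <;> omega
  obtain ⟨m, hm⟩ := key
  refine ⟨m % l, Nat.mod_lt _ hl.pos, ?_⟩
  unfold Good at hm ⊢
  rw [Nat.mod_mod]
  exact ⟨hm.1, fun j => by rw [Nat.mod_add_mod]; exact hm.2 j⟩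

/-- the laws themselves -/
theorem main (C : ℝ) (hC : 0 < C) (hlim : Tendsto (PrP f4) atTop (𝓝 C)) :
    ∀ b L : ℕ, 2 ≤ b → ∀ η : ℝ, 0 < η → ∀ κ : Fin 3 → ℤ, (∀ j, κ j ≠ 0) →
    ∀ (B J D K₁ : ℕ) (θ : ℝ), 0 < θ → ∀ ε : ℝ, 0 < ε → ε ≤ 1 → ∃ k₀ : ℕ, ∀ k : ℕ, k₀ ≤ k →
    ∀ μ : Fin 3 → ℕ → ℝ, (∀ j, DC b L η k (μ j)) → ∀ y : ℕ, θ * Real.log k ≤ y → y ≤ K₁ * Real.log k →
    ∀ c : Fin 3 → ℤ, (∀ j, |c j| ≤ B * (b : ℤ) ^ k) → ∀ h : Fin 3 → ℕ, (∀ j, 1 ≤ h j ∧ h j ≤ k ^ J) →
    ∀ n : ℕ, b ^ k ≤ n * k ^ D → n ≤ b ^ k * k ^ D →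
      ∑ v ∈ Fintype.piFinset (fun _ : Fin 3 => range (b ^ k)), (if (∀ j, 0 < Nv y (h j) (c j) (κ j) (v j)) →
        |N1 n (fun j => Nv y (h j) (c j) (κ j) (v j)) * (Real.log n ^ 4 / n) - 27 / 2 * C| ≤ ε ∧
        |N2 n (fun j => Nv y (h j) (c j) (κ j) (v j)) * (Real.log n ^ 4 / n) - 27 * C| ≤ ε
        then 0 else ∏ j, μ j (v j)) ≤ ε := by
  intro b L hb η hη κ hκ B J D K₁ θ hθ ε hε hε1
  have hcls := dc_rcls b L hb η hη
  obtain ⟨k1, h1⟩ := hl_cls hcls 3 κ hκ ![2, 6, 8] (by decide) admA (27 / 2 * C) (by positivity) (shape268 C hlim) B J D K₁ θ hθ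
    (ε / 2) (by linarith) (by linarith)
  obtain ⟨k2, h2⟩ := hl_cls hcls 3 κ hκ ![4, 6, 10] (by decide) admB (27 * C) (by positivity) (shape4610 C hlim) B J D K₁ θ hθ
    (ε / 2) (by linarith) (by linarith)
  refine ⟨max k1 k2, fun k hk μ hμ y hy1 hy2 c hc h hh n hn1 hn2 => ?_⟩
  have g1 := h1 k (by omega) μ hμ y hy1 hy2 c hc h hh n hn1 hn2
  have g2 := h2 k (by omega) μ hμ y hy1 hy2 c hc h hh n hn1 hn2
  have hsplit : ∀ v : Fin 3 → ℕ, (if (∀ j, 0 < Nv y (h j) (c j) (κ j) (v j)) →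
        |N1 n (fun j => Nv y (h j) (c j) (κ j) (v j)) * (Real.log n ^ 4 / n) - 27 / 2 * C| ≤ ε ∧
        |N2 n (fun j => Nv y (h j) (c j) (κ j) (v j)) * (Real.log n ^ 4 / n) - 27 * C| ≤ ε
        then 0 else ∏ j, μ j (v j)) ≤
      (if (∀ j, 0 < Pool.Agent.N625.PT.Nm y (h j) (c j) (κ j) (v j)) →
        |((Tup ![2, 6, 8] (fun j => Pool.Agent.N625.PT.Nm y (h j) (c j) (κ j) (v j)) n).card : ℝ) * (Real.log n ^ (3 + 1) / n) - 27 / 2 * C| ≤ ε / 2
        then 0 else ∏ j, μ j (v j)) +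
      (if (∀ j, 0 < Pool.Agent.N625.PT.Nm y (h j) (c j) (κ j) (v j)) →
        |((Tup ![4, 6, 10] (fun j => Pool.Agent.N625.PT.Nm y (h j) (c j) (κ j) (v j)) n).card : ℝ) * (Real.log n ^ (3 + 1) / n) - 27 * C| ≤ ε / 2
        then 0 else ∏ j, μ j (v j)) := by
    intro v
    have hw0 : 0 ≤ ∏ j, μ j (v j) := prod_nonneg fun j _ => DC_nonneg (hμ j) _
    have eN : ∀ j, Pool.Agent.N625.PT.Nm y (h j) (c j) (κ j) (v j) = Nv y (h j) (c j) (κ j) (v j) := fun _ => rfl
    simp only [eN, eqA, eqB]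
    by_cases e1 : (∀ j, 0 < Nv y (h j) (c j) (κ j) (v j)) →
        |N1 n (fun j => Nv y (h j) (c j) (κ j) (v j)) * (Real.log n ^ (3 + 1) / n) - 27 / 2 * C| ≤ ε / 2
    · by_cases e2 : (∀ j, 0 < Nv y (h j) (c j) (κ j) (v j)) →
        |N2 n (fun j => Nv y (h j) (c j) (κ j) (v j)) * (Real.log n ^ (3 + 1) / n) - 27 * C| ≤ ε / 2
      · rw [if_pos e1, if_pos e2, if_pos]
        · norm_num
        · intro hpos
          exact ⟨(e1 hpos).trans (by linarith), (e2 hpos).trans (by linarith)⟩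
      · rw [if_pos e1, if_neg e2, zero_add]
        split_ifs
        · exact hw0
        · exact le_rfl
    · rw [if_neg e1]
      split_ifs <;> linarith
  refine (sum_le_sum fun v _ => hsplit v).trans ?_
  rw [sum_add_distrib]
  linarith

/-- The products of `p ^ 3 (p - 4) / (p - 1) ^ 4` over the primes `3 < p < N` converge to a number `C > 0`; `E = 27 / 2 C` is the
constant of the problem. Let `b ≥ 2`, `L` and `η > 0`, and let `v j < b ^ k`, `j < 3`, be independent random integers with `k`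
determinantal digits in base `b` (`DetDigits b L η 0 k (p j)`), let `y` be between `θ log k` and `K₁ log k` (`θ > 0` is
arbitrary), `M` the product of the primes `≤ y` (a power of `k` only), `|c j| ≤ B b ^ k`, `1 ≤ h j ≤ k ^ J`,
`N_j = M h_j (c_j + κ_j v_j)`, and let `n` be any integer with `b ^ k ≤ n k ^ D`, `n ≤ b ^ k k ^ D`. Up to a probability of at
most `ε`, if all `N_j > 0`, then `log ^ 4 n / n` times the number of the primes `p ≤ n` such that `p + 2 + N_0`, `p + 6 + N_1`,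
`p + 8 + N_2` are prime differs from `E` by at most `ε`, and `log ^ 4 n / n` times the number of the primes `p ≤ n` such that
`p + 4 + N_0`, `p + 6 + N_1`, `p + 10 + N_2` are prime differs from `2 E` by at most `ε`. -/
theorem result : ∃ C : ℝ, 0 < C ∧
    Tendsto (fun N : ℕ => ∏ p ∈ (Finset.range N).filter (fun p => p.Prime ∧ 3 < p), (p : ℝ) ^ 3 * ((p : ℝ) - 4) / ((p : ℝ) - 1) ^ 4) atTop (𝓝 C) ∧
    ∀ b L : ℕ, 2 ≤ b → ∀ η : ℝ, 0 < η → ∀ κ : Fin 3 → ℤ, (∀ j, κ j ≠ 0) →
    ∀ (B J D K₁ : ℕ) (θ : ℝ), 0 < θ → ∀ ε : ℝ, 0 < ε → ε ≤ 1 → ∃ k₀ : ℕ, ∀ k : ℕ, k₀ ≤ k →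
    ∀ p : Fin 3 → ℕ → ℝ, (∀ j, DetDigits b L η 0 k (p j)) → ∀ y : ℕ, θ * Real.log k ≤ y → y ≤ K₁ * Real.log k →
    ∀ c : Fin 3 → ℤ, (∀ j, |c j| ≤ B * (b : ℤ) ^ k) → ∀ h : Fin 3 → ℕ, (∀ j, 1 ≤ h j ∧ h j ≤ k ^ J) →
    ∀ n : ℕ, b ^ k ≤ n * k ^ D → n ≤ b ^ k * k ^ D →
      ∑ v ∈ Fintype.piFinset (fun _ : Fin 3 => range (b ^ k)), (if (∀ j, 0 < Nv y (h j) (c j) (κ j) (v j)) →
        |N1 n (fun j => Nv y (h j) (c j) (κ j) (v j)) * (Real.log n ^ 4 / n) - 27 / 2 * C| ≤ ε ∧
        |N2 n (fun j => Nv y (h j) (c j) (κ j) (v j)) * (Real.log n ^ 4 / n) - 27 * C| ≤ ε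
        then 0 else ∏ j, p j (v j)) ≤ ε := by
  obtain ⟨C, hC, hlim⟩ := f4_lim
  refine ⟨C, hC, hlim, ?_⟩
  intro b L hb η hη κ hκ B J D K₁ θ hθ ε hε hε1
  obtain ⟨k₀, h0⟩ := main C hC hlim b L hb η hη κ hκ B J D K₁ θ hθ ε hε hε1
  refine ⟨k₀, fun k hk p hp y hy1 hy2 c hc h hh n hn1 hn2 => ?_⟩
  have hfam : ∀ j, ∃ ν : ℕ → ℝ, DC b L η k ν ∧ ∀ v, 0 ≤ p j v ∧ p j v ≤ (k : ℝ) ^ 0 * ν v := fun j => fam_dc (hp j)
  choose ν hν hle using hfam
  refine le_trans (sum_le_sum fun v _ => ?_) (h0 k hk ν hν y hy1 hy2 c hc h hh n hn1 hn2)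
  split_ifs
  · exact le_rfl
  · refine prod_le_prod (fun j _ => (hle j (v j)).1) fun j _ => ?_
    have h3 := (hle j (v j)).2
    rwa [pow_zero, one_mul] at h3

end Pool.Agent.Results.MP_092512_nt.BothShapesOnAverage
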