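import Mathlib
import Pool.Agent.Run7.h189.CO.WordPat

/-!
# Prime quadruples up to boundedly many digits

For `p > 5` the numbers `p, p + 2, p + 6, p + 8` are prime if and only if they are the numbers
`10 n + 1, 10 n + 3, 10 n + 7, 10 n + 9` for some `n` and these are prime: one appends the digits `1, 3, 7, 9` to `n`. It is
not known whether this happens infinitely often. We prove: there is a constant `C` such that for infinitely many `n` each
of the four numbers becomes prime if at most `C` further digits, all of them `1, 3, 7` or `9`, are appended to it, for all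
four numbers simultaneously.

In general let `x ↦ a x + b c`, `c : Fin r`, be affine maps with the same multiplier `a ≥ 2`, with `b c` coprime to `a`,
such that different words give different maps, and let `Val a b w x` be the value at `x` of the composition belonging to
the word `w` (the head of `w` is applied last). For all `k` and `m` there is `C` such that EVERY nonempty set `V` of at
most `k` words has the following property: there is a finite set `J` of words which has at least `m` elements `e ++ v` with
`|e| ≤ C` for every `v ∈ V`, and no other elements (each element of `J` is such an `e ++ v`), and for every `R` there are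
infinitely many `x` such that, among all words `w` of length at most `R`, the number `Val a b w x` is prime exactly for
`w ∈ J`. The constant `C` does not depend on `V`: the words of `V` may be arbitrarily long.

Proof. By the coloured Maynard-Tao theorem a quarter of arbitrary classes of words is hit by simultaneous primes, exactly
(`CO.pattern_words`), where the words of a class are `e ++ v` with `e` correcting the residues modulo the small primes
(`CO.correction`, `CO.clustersW`). If the statement fails for some set `V_C` for every `C`, one composes counterexamples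
`V_(C_0), V_(C_1), …` with `C_j` large in terms of the preceding ones; by the density Hales-Jewett theorem a combinatorial
line is hit, and the active coordinate next to the root gives the desired pattern for one of the counterexamples. The
method for the additive group of the integers is from the starting files (`H732R3.Haus`).
-/

set_option autoImplicit false

namespace Pool.Agent.Results.MP_092512_nt.BoundedlyManyDigits

open Finset Pool.Agent.Run7.h189.CO

/-- `z = e ++ v` with `|e| ≤ C`: the composition of the word `v`, followed by at most `C` further maps -/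
def Above {r : ℕ} (C : ℕ) (v z : List (Fin r)) : Prop := ∃ e : List (Fin r), e.length ≤ C ∧ z = e ++ v

open Classical in
/-- (1) **The primes in the orbits of several affine maps follow every finite set of words up to a bounded number of
maps.** (2) Different words give different maps if the `b c` are pairwise incongruent modulo `a`, or if `r = 2` and
`b 0 ≠ b 1`. (3) There are `C` and words `e 0, e 1, e 2, e 3` of length at most `C` in the digits `1, 3, 7, 9` such that
for infinitely many `n` the four numbers `10 n + 1`, `10 n + 3`, `10 n + 7`, `10 n + 9`, followed by the digits of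
`e 0`, `e 1`, `e 2`, `e 3`, are prime. -/
theorem result :
    (∀ (r : ℕ) (a : ℤ) (b : Fin r → ℤ), 1 ≤ r → 2 ≤ a → (∀ c, IsCoprime a (b c)) →
      Function.Injective (Val a b) → ∀ k m : ℕ, 1 ≤ m → ∃ C : ℕ, ∀ V : Finset (List (Fin r)),
      V.Nonempty → V.card ≤ k → ∃ J : Finset (List (Fin r)),
        (∀ v ∈ V, m ≤ (J.filter (fun z => Above C v z)).card) ∧ (∀ z ∈ J, ∃ v ∈ V, Above C v z) ∧
        ∀ R : ℕ, {x : ℕ | ∀ w : List (Fin r), w.length ≤ R →
          ((Val a b w x).toNat.Prime ↔ w ∈ J)}.Infinite) ∧
    ((∀ (r : ℕ) (a : ℤ) (b : Fin r → ℤ), 2 ≤ a → (∀ c c', a ∣ b c - b c' → c = c') →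
      Function.Injective (Val a b)) ∧
      (∀ (a : ℤ) (b : Fin 2 → ℤ), 2 ≤ a → b 0 ≠ b 1 → Function.Injective (Val a b))) ∧
    (∃ (C : ℕ) (e : Fin 4 → List (Fin 4)), (∀ d, (e d).length ≤ C) ∧
      {n : ℕ | ∀ d : Fin 4, (Val 10 ![1, 3, 7, 9] (e d) (10 * n + ![1, 3, 7, 9] d)).toNat.Prime}.Infinite) := by
  have h1 : ∀ (r : ℕ) (a : ℤ) (b : Fin r → ℤ), 1 ≤ r → 2 ≤ a → (∀ c, IsCoprime a (b c)) →
      Function.Injective (Val a b) → ∀ k m : ℕ, 1 ≤ m → ∃ C : ℕ, ∀ V : Finset (List (Fin r)),
      V.Nonempty → V.card ≤ k → ∃ J : Finset (List (Fin r)),
        (∀ v ∈ V, m ≤ (J.filter (fun z => Above C v z)).card) ∧ (∀ z ∈ J, ∃ v ∈ V, Above C v z) ∧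
        ∀ R : ℕ, {x : ℕ | ∀ w : List (Fin r), w.length ≤ R →
          ((Val a b w x).toNat.Prime ↔ w ∈ J)}.Infinite :=
    fun r a b hr ha hb hinj k m hm => words_final ha hb hinj hr k m hm
  refine ⟨h1, ⟨fun r a b ha h => free_of_incong ha h, fun a b ha h => free_of_two ha h⟩, ?_⟩
  obtain ⟨C, hC⟩ := h1 4 10 ![1, 3, 7, 9] (by norm_num) (by norm_num) (by
      intro c
      fin_cases c
      · exact ⟨0, 1, by simp⟩
      · exact ⟨1, -3, by simp⟩
      · exact ⟨-2, 3, by simp⟩
      · exact ⟨1, -1, by simp⟩) (free_of_incong (by norm_num) (by
      intro c c' h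
      fin_cases c <;> fin_cases c' <;> simp at h ⊢ <;> omega)) 4 1 le_rfl
  obtain ⟨J, hJ1, -, hJ3⟩ := hC (univ.image (fun d : Fin 4 => [d])) ⟨[0], mem_image_of_mem _ (mem_univ _)⟩
    (card_image_le.trans (by simp))
  have h2 : ∀ d : Fin 4, ∃ e : List (Fin 4), e.length ≤ C ∧ e ++ [d] ∈ J := by
    intro d
    have h3 := hJ1 [d] (mem_image_of_mem _ (mem_univ _))
    obtain ⟨z, hz⟩ := card_pos.1 (Nat.lt_of_lt_of_le one_pos h3)
    obtain ⟨hz1, e, he, rfl⟩ := mem_filter.1 hz
    exact ⟨e, he, hz1⟩
  choose e he heJ using h2
  refine ⟨C, e, he, (hJ3 (C + 1)).mono ?_⟩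
  intro n hn d
  have h4 := (hn (e d ++ [d]) (by
    rw [List.length_append]
    have := he d
    simp only [List.length_singleton]
    omega)).2 (heJ d)
  rw [Val_append] at h4
  exact h4

end Pool.Agent.Results.MP_092512_nt.BoundedlyManyDigits
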