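import Pool.Agent.Run7.h90.AU.Form

set_option autoImplicit false

/-!
# The two shapes of prime quadruples at the members of thin families of residues modulo a prime

Let `p` be a large prime and let `(v_i)`, `i ∈ s`, be a family of residues modulo `p` whose exponential sums
`∑ e(ξ v_i / p)`, `ξ ≠ 0`, are at most `p ^ (-ε) |s|`; the family may be very thin. Examples: the values of a sparse
polynomial of arbitrary degree on a subgroup of order `p ^ η`, the values `c_1 g_1 ^ n + ... + c_k g_k ^ n`, `n < N`,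
`N ≥ p ^ η`. The theorem is about the integers `n` congruent to a member of the family modulo `p` in an interval of length
`L ≥ p ^ (1 - δ)`. The numbers
`n, n + 2, n + 6, n + 8` resp. `n, n + 4, n + 6, n + 10` without prime factors up to `z` have the frequencies predicted by
Hardy and Littlewood, with the constants `E` and `2 E` of the problem.

Proof: bound of Bourgain, Glibichuk and Konyagin in the form for recurrences and monomials (`Agent/Run7/h823/BK9`);
equidistribution in the residue classes modulo all integers up to `p ^ δ` and the fundamental lemma of the sieve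
(`Agent/Run7/h90/AU`).
-/

namespace Pool.Agent.Results.MP_092512_nt.SparsePolynomialValues

open Finset Filter Topology
open Pool.Agent.Run7.h90.AU (Formula Orders SparseSmall RecurrencesSmall)

/-- The partial products, over the primes `3 < q ≤ z`, of the constant `E` of the problem. -/
noncomputable def partialE (z : ℕ) : ℝ :=
  27 / 2 * ∏ q ∈ (Icc 4 z).filter Nat.Prime, ((q : ℝ) ^ 3 * ((q : ℝ) - 4) / ((q : ℝ) - 1) ^ 4)

/-- All the numbers `n, n + 2, n + 6, n + 8` have the property `P`. -/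
def First (P : ℕ → Prop) (n : ℕ) : Prop := P n ∧ P (n + 2) ∧ P (n + 6) ∧ P (n + 8)

/-- All the numbers `n, n + 4, n + 6, n + 10` have the property `P`. -/
def Second (P : ℕ → Prop) (n : ℕ) : Prop := P n ∧ P (n + 4) ∧ P (n + 6) ∧ P (n + 10)

/-- constant terms of the linear forms -/
def a1 : Fin 4 → ℤ := ![0, 2, 6, 8]

/-- leading coefficients of the linear forms -/
def d1 : Fin 4 → ℤ := ![1, 1, 1, 1]

theorem iff1 (P : ℕ → Prop) (n : ℕ) (hn : 1 ≤ n) :
    (∀ j, P (a1 j + d1 j * (n : ℤ)).natAbs) ↔ First P n := by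
  unfold a1 d1 First
  simp only [Fin.forall_fin_succ, Fin.forall_fin_zero, Matrix.cons_val_zero, Matrix.cons_val_succ, and_true]
  have e0 : ((0 : ℤ) + 1 * (n : ℤ)).natAbs = n := by omega
  have e1 : ((2 : ℤ) + 1 * (n : ℤ)).natAbs = n + 2 := by omega
  have e2 : ((6 : ℤ) + 1 * (n : ℤ)).natAbs = n + 6 := by omega
  have e3 : ((8 : ℤ) + 1 * (n : ℤ)).natAbs = n + 8 := by omega
  rw [e0, e1, e2, e3]

theorem nd1 : Pool.Agent.Run7.h90.AU.ND a1 d1 := by
  refine Pool.Agent.Run7.h90.AU.nd_of (by decide) (by decide)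
    (fun j => Int.isCoprime_iff_gcd_eq_one.2 (by revert j; decide)) ?_
  · intro l hl h
    have hl2 := hl.two_le
    have hne4 : l ≠ 4 := by
      rintro rfl
      exact absurd hl (by decide)
    have hcase : l = 2 ∨ l = 3 := by omega
    rcases hcase with rfl | rfl
    · exact ⟨1, by decide⟩
    · exact ⟨2, by decide⟩

theorem res1 : (Pool.Agent.Run7.h90.AU.Res a1 d1).natAbs = 4608 := by decide

theorem om1 : Pool.Agent.Run7.h90.AU.om a1 d1 2 = 1 ∧ Pool.Agent.Run7.h90.AU.om a1 d1 3 = 2 := by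
  unfold Pool.Agent.Run7.h90.AU.om
  decide

theorem psing1 {z : ℕ} (hz : 3 ≤ z) : Pool.Agent.Run7.h90.AU.psing a1 d1 z = partialE z := by
  rw [Pool.Agent.Run7.h90.AU.psing_exp nd1 3 (fun l hl h => by
    rw [res1] at h
    exact (Pool.Agent.Run7.h90.AU.sm23 hl h 9 2 (by norm_num)).trans (by norm_num)) hz]
  have e1 : Pool.Agent.Run7.h90.AU.psing a1 d1 3 = 27 / 2 := by
    unfold Pool.Agent.Run7.h90.AU.psing
    have e : (range (3 + 1)).filter Nat.Prime = {2, 3} := by decide
    rw [e, prod_insert (by decide), prod_singleton, om1.1, om1.2]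
    norm_num
  have e2 : ∀ q ∈ (Icc (3 + 1) z).filter Nat.Prime, (1 - ((4 : ℕ) : ℝ) / q) / (1 - 1 / (q : ℝ)) ^ 4 =
      ((q : ℝ) ^ 3 * ((q : ℝ) - 4) / ((q : ℝ) - 1) ^ 4) := by
    intro q hq
    rw [mem_filter, mem_Icc] at hq
    have h4 : (3 : ℝ) + 1 ≤ q := by exact_mod_cast hq.1.1
    have h1 : (q : ℝ) ≠ 0 := by linarith
    have h2 : (q : ℝ) - 1 ≠ 0 := by linarith
    have e : (1 : ℝ) - 1 / q = (q - 1) / q := by field_simp
    rw [e]
    field_simp
    push_cast
    ring
  unfold partialE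
  rw [e1, prod_congr rfl e2]

/-- constant terms of the linear forms -/
def a2 : Fin 4 → ℤ := ![0, 4, 6, 10]

/-- leading coefficients of the linear forms -/
def d2 : Fin 4 → ℤ := ![1, 1, 1, 1]

theorem iff2 (P : ℕ → Prop) (n : ℕ) (hn : 1 ≤ n) :
    (∀ j, P (a2 j + d2 j * (n : ℤ)).natAbs) ↔ Second P n := by
  unfold a2 d2 Second
  simp only [Fin.forall_fin_succ, Fin.forall_fin_zero, Matrix.cons_val_zero, Matrix.cons_val_succ, and_true]
  have e0 : ((0 : ℤ) + 1 * (n : ℤ)).natAbs = n := by omega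
  have e1 : ((4 : ℤ) + 1 * (n : ℤ)).natAbs = n + 4 := by omega
  have e2 : ((6 : ℤ) + 1 * (n : ℤ)).natAbs = n + 6 := by omega
  have e3 : ((10 : ℤ) + 1 * (n : ℤ)).natAbs = n + 10 := by omega
  rw [e0, e1, e2, e3]

theorem nd2 : Pool.Agent.Run7.h90.AU.ND a2 d2 := by
  refine Pool.Agent.Run7.h90.AU.nd_of (by decide) (by decide)
    (fun j => Int.isCoprime_iff_gcd_eq_one.2 (by revert j; decide)) ?_
  · intro l hl h
    have hl2 := hl.two_le
    have hne4 : l ≠ 4 := by
      rintro rfl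
      exact absurd hl (by decide)
    have hcase : l = 2 ∨ l = 3 := by omega
    rcases hcase with rfl | rfl
    · exact ⟨1, by decide⟩
    · exact ⟨1, by decide⟩

theorem res2 : (Pool.Agent.Run7.h90.AU.Res a2 d2).natAbs = 11520 := by decide

theorem om2 : Pool.Agent.Run7.h90.AU.om a2 d2 2 = 1 ∧ Pool.Agent.Run7.h90.AU.om a2 d2 3 = 2 ∧ Pool.Agent.Run7.h90.AU.om a2 d2 5 = 3 := by
  unfold Pool.Agent.Run7.h90.AU.om
  decide

theorem psing2 {z : ℕ} (hz : 5 ≤ z) : Pool.Agent.Run7.h90.AU.psing a2 d2 z = 2 * partialE z := by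
  rw [Pool.Agent.Run7.h90.AU.psing_exp nd2 5 (fun l hl h => by
    rw [res2] at h
    exact (Pool.Agent.Run7.h90.AU.sm235 hl h 8 2 1 (by norm_num)).trans (by norm_num)) hz]
  have e1 : Pool.Agent.Run7.h90.AU.psing a2 d2 5 = 3375 / 256 := by
    unfold Pool.Agent.Run7.h90.AU.psing
    have e : (range (5 + 1)).filter Nat.Prime = {2, 3, 5} := by decide
    rw [e, prod_insert (by decide), prod_insert (by decide), prod_singleton, om2.1, om2.2.1, om2.2.2]
    norm_num
  have e2 : ∀ q ∈ (Icc (5 + 1) z).filter Nat.Prime, (1 - ((4 : ℕ) : ℝ) / q) / (1 - 1 / (q : ℝ)) ^ 4 =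
      ((q : ℝ) ^ 3 * ((q : ℝ) - 4) / ((q : ℝ) - 1) ^ 4) := by
    intro q hq
    rw [mem_filter, mem_Icc] at hq
    have h4 : (5 : ℝ) + 1 ≤ q := by exact_mod_cast hq.1.1
    have h1 : (q : ℝ) ≠ 0 := by linarith
    have h2 : (q : ℝ) - 1 ≠ 0 := by linarith
    have e : (1 : ℝ) - 1 / q = (q - 1) / q := by field_simp
    rw [e]
    field_simp
    push_cast
    ring
  have hset : (Icc 4 z).filter Nat.Prime =
      insert 5 ((Icc (5 + 1) z).filter Nat.Prime) := by
    ext l
    simp only [mem_insert, mem_filter, mem_Icc]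
    constructor
    · rintro ⟨⟨h1, h2⟩, h3⟩
      have hne4 : l ≠ 4 := by
        rintro rfl
        exact absurd h3 (by decide)
      have hc : l = 5 ∨ 5 + 1 ≤ l := by omega
      rcases hc with h | h
      · exact Or.inl h
      · exact Or.inr (⟨⟨h, h2⟩, h3⟩)
    · rintro (h | ⟨⟨h1, h2⟩, h3⟩)
      · rw [h]
        exact ⟨⟨by omega, by omega⟩, by decide⟩
      · exact ⟨⟨by omega, h2⟩, h3⟩
  unfold partialE
  rw [e1, prod_congr rfl e2, hset, prod_insert (by simp [mem_filter, mem_Icc])]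
  norm_num
  try ring

theorem result : ∃ D : ℝ, 0 < D ∧ Tendsto partialE atTop (𝓝 D) ∧
    Formula 4 First D ∧ Orders 4 First ∧
    Formula 4 Second (2 * D) ∧ Orders 4 Second ∧
    SparseSmall ∧ RecurrencesSmall := by
  obtain ⟨D₀, hD₀, hl₀⟩ := Pool.Agent.Run7.h90.AU.lim_of nd1
  have hD : Tendsto partialE atTop (𝓝 D₀) := hl₀.congr' (by
    filter_upwards [eventually_ge_atTop 3] with z hz
    exact psing1 hz)
  have l2 : Tendsto (Pool.Agent.Run7.h90.AU.psing a2 d2) atTop (𝓝 (2 * D₀)) := (hD.const_mul (2)).congr' (by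
    filter_upwards [eventually_ge_atTop 5] with z hz
    exact (psing2 hz).symm)
  refine ⟨D₀, hD₀, hD, Pool.Agent.Run7.h90.AU.formula_of nd1 iff1 hD₀ hl₀, Pool.Agent.Run7.h90.AU.orders_of nd1 iff1 hD₀ hl₀,
    Pool.Agent.Run7.h90.AU.formula_of nd2 iff2 (by positivity) l2, Pool.Agent.Run7.h90.AU.orders_of nd2 iff2 (by positivity) l2,
    Pool.Agent.Run7.h90.AU.sparse_small, Pool.Agent.Run7.h90.AU.rec_small⟩

end Pool.Agent.Results.MP_092512_nt.SparsePolynomialValues
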